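import Mathlib

set_option autoImplicit false

open scoped TensorProduct

namespace Pool.Agent.W94.BF

/-- The Clifford algebra of the binary quadratic form `a x² + 2 b x y + c y²` over the commutative
ring `L`: the elements are `x0 + x1 e + x2 f + x3 (e f)` with `e² = a`, `f² = c` and
`e f + f e = 2 b`. -/
@[ext] structure Clif (L : Type) [CommRing L] (a b c : L) : Type where
  x0 : L
  x1 : L
  x2 : L
  x3 : L

namespace Clif

variable {L : Type} [CommRing L] {a b c : L}

instance : Zero (Clif L a b c) := ⟨⟨0, 0, 0, 0⟩⟩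
instance : One (Clif L a b c) := ⟨⟨1, 0, 0, 0⟩⟩
instance : Add (Clif L a b c) :=
  ⟨fun x y => ⟨x.x0 + y.x0, x.x1 + y.x1, x.x2 + y.x2, x.x3 + y.x3⟩⟩
instance : Neg (Clif L a b c) := ⟨fun x => ⟨-x.x0, -x.x1, -x.x2, -x.x3⟩⟩
instance : Sub (Clif L a b c) :=
  ⟨fun x y => ⟨x.x0 - y.x0, x.x1 - y.x1, x.x2 - y.x2, x.x3 - y.x3⟩⟩
instance : Mul (Clif L a b c) := ⟨fun x y =>
  ⟨x.x0 * y.x0 + a * x.x1 * y.x1 + 2 * b * x.x2 * y.x1 + c * x.x2 * y.x2 - a * c * x.x3 * y.x3,
   x.x0 * y.x1 + x.x1 * y.x0 - c * x.x2 * y.x3 + 2 * b * x.x3 * y.x1 + c * x.x3 * y.x2,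
   x.x0 * y.x2 + x.x2 * y.x0 + a * x.x1 * y.x3 + 2 * b * x.x2 * y.x3 - a * x.x3 * y.x1,
   x.x0 * y.x3 + x.x3 * y.x0 + x.x1 * y.x2 - x.x2 * y.x1 + 2 * b * x.x3 * y.x3⟩⟩

@[simp] theorem zero_x0 : (0 : Clif L a b c).x0 = 0 := rfl
@[simp] theorem zero_x1 : (0 : Clif L a b c).x1 = 0 := rfl
@[simp] theorem zero_x2 : (0 : Clif L a b c).x2 = 0 := rfl
@[simp] theorem zero_x3 : (0 : Clif L a b c).x3 = 0 := rfl
@[simp] theorem one_x0 : (1 : Clif L a b c).x0 = 1 := rfl
@[simp] theorem one_x1 : (1 : Clif L a b c).x1 = 0 := rfl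
@[simp] theorem one_x2 : (1 : Clif L a b c).x2 = 0 := rfl
@[simp] theorem one_x3 : (1 : Clif L a b c).x3 = 0 := rfl
@[simp] theorem add_x0 (x y : Clif L a b c) : (x + y).x0 = x.x0 + y.x0 := rfl
@[simp] theorem add_x1 (x y : Clif L a b c) : (x + y).x1 = x.x1 + y.x1 := rfl
@[simp] theorem add_x2 (x y : Clif L a b c) : (x + y).x2 = x.x2 + y.x2 := rfl
@[simp] theorem add_x3 (x y : Clif L a b c) : (x + y).x3 = x.x3 + y.x3 := rfl
@[simp] theorem neg_x0 (x : Clif L a b c) : (-x).x0 = -x.x0 := rfl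
@[simp] theorem neg_x1 (x : Clif L a b c) : (-x).x1 = -x.x1 := rfl
@[simp] theorem neg_x2 (x : Clif L a b c) : (-x).x2 = -x.x2 := rfl
@[simp] theorem neg_x3 (x : Clif L a b c) : (-x).x3 = -x.x3 := rfl
@[simp] theorem sub_x0 (x y : Clif L a b c) : (x - y).x0 = x.x0 - y.x0 := rfl
@[simp] theorem sub_x1 (x y : Clif L a b c) : (x - y).x1 = x.x1 - y.x1 := rfl
@[simp] theorem sub_x2 (x y : Clif L a b c) : (x - y).x2 = x.x2 - y.x2 := rfl
@[simp] theorem sub_x3 (x y : Clif L a b c) : (x - y).x3 = x.x3 - y.x3 := rfl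
@[simp] theorem mul_x0 (x y : Clif L a b c) : (x * y).x0 =
    x.x0 * y.x0 + a * x.x1 * y.x1 + 2 * b * x.x2 * y.x1 + c * x.x2 * y.x2
      - a * c * x.x3 * y.x3 := rfl
@[simp] theorem mul_x1 (x y : Clif L a b c) : (x * y).x1 =
    x.x0 * y.x1 + x.x1 * y.x0 - c * x.x2 * y.x3 + 2 * b * x.x3 * y.x1 + c * x.x3 * y.x2 := rfl
@[simp] theorem mul_x2 (x y : Clif L a b c) : (x * y).x2 =
    x.x0 * y.x2 + x.x2 * y.x0 + a * x.x1 * y.x3 + 2 * b * x.x2 * y.x3 - a * x.x3 * y.x1 := rfl
@[simp] theorem mul_x3 (x y : Clif L a b c) : (x * y).x3 =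
    x.x0 * y.x3 + x.x3 * y.x0 + x.x1 * y.x2 - x.x2 * y.x1 + 2 * b * x.x3 * y.x3 := rfl

instance : SMul ℕ (Clif L a b c) := ⟨fun n x => ⟨n • x.x0, n • x.x1, n • x.x2, n • x.x3⟩⟩
instance : SMul ℤ (Clif L a b c) := ⟨fun n x => ⟨n • x.x0, n • x.x1, n • x.x2, n • x.x3⟩⟩

/-- The coordinates as a bijection with `L × L × L × L`. -/
def toProd (x : Clif L a b c) : L × L × L × L := (x.x0, x.x1, x.x2, x.x3)

theorem toProd_inj : Function.Injective (toProd : Clif L a b c → L × L × L × L) := by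
  intro x y h
  simp only [toProd, Prod.mk.injEq] at h
  ext
  · exact h.1
  · exact h.2.1
  · exact h.2.2.1
  · exact h.2.2.2

instance : AddCommGroup (Clif L a b c) :=
  toProd_inj.addCommGroup toProd rfl (fun _ _ => rfl) (fun _ => rfl) (fun _ _ => rfl)
    (fun _ _ => rfl) (fun _ _ => rfl)

instance : Ring (Clif L a b c) where
  __ := (inferInstance : AddCommGroup (Clif L a b c))
  left_distrib x y z := by ext <;> simp <;> ring
  right_distrib x y z := by ext <;> simp <;> ring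
  zero_mul x := by ext <;> simp
  mul_zero x := by ext <;> simp
  mul_assoc x y z := by ext <;> simp <;> ring
  one_mul x := by ext <;> simp
  mul_one x := by ext <;> simp

variable {S : Type} [CommRing S] [Algebra S L]

instance : SMul S (Clif L a b c) := ⟨fun s x => ⟨s • x.x0, s • x.x1, s • x.x2, s • x.x3⟩⟩

@[simp] theorem smul_x0 (s : S) (x : Clif L a b c) : (s • x).x0 = s • x.x0 := rfl
@[simp] theorem smul_x1 (s : S) (x : Clif L a b c) : (s • x).x1 = s • x.x1 := rfl
@[simp] theorem smul_x2 (s : S) (x : Clif L a b c) : (s • x).x2 = s • x.x2 := rfl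
@[simp] theorem smul_x3 (s : S) (x : Clif L a b c) : (s • x).x3 = s • x.x3 := rfl

instance : Algebra S (Clif L a b c) where
  algebraMap :=
    { toFun := fun s => ⟨algebraMap S L s, 0, 0, 0⟩
      map_one' := by ext <;> simp
      map_mul' := fun s t => by ext <;> simp
      map_zero' := by ext <;> simp
      map_add' := fun s t => by ext <;> simp }
  commutes' s x := by
    ext <;> simp [mul_comm]
  smul_def' s x := by
    ext <;> simp [Algebra.smul_def]

@[simp] theorem algebraMap_x0 (s : S) : (algebraMap S (Clif L a b c) s).x0 = algebraMap S L s := rfl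
@[simp] theorem algebraMap_x1 (s : S) : (algebraMap S (Clif L a b c) s).x1 = 0 := rfl
@[simp] theorem algebraMap_x2 (s : S) : (algebraMap S (Clif L a b c) s).x2 = 0 := rfl
@[simp] theorem algebraMap_x3 (s : S) : (algebraMap S (Clif L a b c) s).x3 = 0 := rfl

/-- The generators `e`, `f` and the marked element `e f - b`, whose square is `b² - a c`. -/
def e : Clif L a b c := ⟨0, 1, 0, 0⟩
def f : Clif L a b c := ⟨0, 0, 1, 0⟩
def mark : Clif L a b c := ⟨-b, 0, 0, 1⟩

theorem e_mul_e : (e : Clif L a b c) * e = ⟨a, 0, 0, 0⟩ := by ext <;> simp [e]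
theorem f_mul_f : (f : Clif L a b c) * f = ⟨c, 0, 0, 0⟩ := by ext <;> simp [f]
theorem e_mul_f : (e : Clif L a b c) * f = ⟨0, 0, 0, 1⟩ := by ext <;> simp [e, f]
theorem f_mul_e : (f : Clif L a b c) * e = ⟨2 * b, 0, 0, -1⟩ := by ext <;> simp [e, f]
theorem mark_mul_mark : (mark : Clif L a b c) * mark = ⟨b ^ 2 - a * c, 0, 0, 0⟩ := by
  ext <;> simp [mark] <;> ring
theorem mark_mul_e : (mark : Clif L a b c) * e = -(e * mark) := by
  ext <;> simp [mark, e]; ring
theorem mark_mul_f : (mark : Clif L a b c) * f = -(f * mark) := by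
  ext <;> simp [mark, f]; ring

end Clif

open QuadraticAlgebra in
/-- For `s, p, w, z` in a commutative ring `S`: the quadratic algebra `S[t]/(t² - s t + p)`. -/
abbrev LL (S : Type) [CommRing S] (s p : S) : Type := QuadraticAlgebra S (-p) s

/-- For `s, p, w, z` in a commutative ring `S`: the Clifford algebra over
`L = S[t]/(t² - s t + p)` of the binary quadratic form `t x² + 2 z x y + (s - t) w y²`,
of determinant `p w - z²`, regarded as an `S`-algebra (free of rank `8`). -/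
abbrev AA (S : Type) [CommRing S] (s p w z : S) : Type :=
  Clif (LL S s p) (QuadraticAlgebra.omega) (algebraMap S _ z)
    ((algebraMap S _ s - QuadraticAlgebra.omega) * algebraMap S _ w)

/-- The marked element of `AA S s p w z`; its square is `z² - p w`. -/
def AA.mark {S : Type} [CommRing S] (s p w z : S) : AA S s p w z := Clif.mark

theorem LL.omega_sq {S : Type} [CommRing S] (s p : S) :
    (QuadraticAlgebra.omega : LL S s p) * QuadraticAlgebra.omega =
      algebraMap S _ (-p) + algebraMap S _ s * QuadraticAlgebra.omega := by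
  rw [QuadraticAlgebra.omega_mul_omega_eq_add, Algebra.algebraMap_eq_smul_one, Algebra.smul_def s]

theorem AA.mark_sq {S : Type} [CommRing S] (s p w z : S) :
    AA.mark s p w z * AA.mark s p w z = algebraMap S _ (z ^ 2 - p * w) := by
  rw [AA.mark, Clif.mark_mul_mark]
  have h := LL.omega_sq s p
  ext1
  · change _ = algebraMap S (LL S s p) (z ^ 2 - p * w)
    rw [map_neg] at h
    rw [map_sub, map_pow, map_mul]
    linear_combination (algebraMap S (LL S s p) w) * h
  · rfl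
  · rfl
  · rfl

end Pool.Agent.W94.BF
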