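import Mathlib

set_option autoImplicit false

open scoped TensorProduct Topology Matrix

namespace Pool.Agent.W94.BF

section Fib

variable {R K : Type} [CommRing R] [Field K]

/-- The field `K`, regarded as an algebra over `R` through `φ : R →+* K`. -/
def Pt (_φ : R →+* K) : Type := K

variable (φ : R →+* K)

instance instFieldPt : Field (Pt φ) := inferInstanceAs (Field K)

instance instAlgebraPt : Algebra R (Pt φ) := φ.toAlgebra

variable (B : Type) [Ring B] [Algebra R B]

/-- The fibre `K ⊗[R] B` of the `R`-algebra `B` at the `K`-point `φ : R →+* K` of `Spec R`;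
a `K`-algebra. -/
def Fib : Type := Pt φ ⊗[R] B

noncomputable instance instRingFib : Ring (Fib φ B) := inferInstanceAs (Ring (Pt φ ⊗[R] B))

noncomputable instance instAlgebraFib : Algebra K (Fib φ B) :=
  inferInstanceAs (Algebra (Pt φ) (Pt φ ⊗[R] B))

/-- The elementary tensors. -/
noncomputable def Fib.tmul (c : K) (b : B) : Fib φ B :=
  (show Pt φ from c) ⊗ₜ[R] b

/-- The map `b ↦ 1 ⊗ b`. -/
noncomputable def Fib.of : B →+* Fib φ B :=
  ((Algebra.TensorProduct.includeRight : B →ₐ[R] Pt φ ⊗[R] B) : B →+* Pt φ ⊗[R] B)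

theorem Fib.smul_of (c : K) (b : B) : c • Fib.of φ B b = Fib.tmul φ B c b := by
  change (show Pt φ from c) • ((1 : Pt φ) ⊗ₜ[R] b : Pt φ ⊗[R] B) = _
  rw [TensorProduct.smul_tmul', smul_eq_mul, mul_one]
  rfl

theorem Fib.of_algebraMap (r : R) :
    Fib.of φ B (algebraMap R B r) = algebraMap K (Fib φ B) (φ r) := by
  have h := (Algebra.TensorProduct.includeRight : B →ₐ[R] Pt φ ⊗[R] B).commutes r
  exact h

/-- The universal property of the fibre. -/
noncomputable def Fib.lift {D : Type} [Ring D] [Algebra K D] (f : B →+* D)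
    (hf : ∀ r, f (algebraMap R B r) = algebraMap K D (φ r)) : Fib φ B →ₐ[K] D :=
  letI iD : Algebra (Pt φ) D := (inferInstance : Algebra K D)
  letI : Algebra R D := ((algebraMap K D).comp φ).toAlgebra' (fun r x => by
    simp only [RingHom.comp_apply]; exact Algebra.commutes _ _)
  haveI : IsScalarTower R (Pt φ) D := IsScalarTower.of_algebraMap_eq (fun _ => rfl)
  (Algebra.TensorProduct.lift (S := Pt φ) (Algebra.ofId (Pt φ) D)
    ({ f with commutes' := hf } : B →ₐ[R] D) (fun x y => Algebra.commutes (R := K) x _) :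
      Pt φ ⊗[R] B →ₐ[Pt φ] D)

@[simp] theorem Fib.lift_of {D : Type} [Ring D] [Algebra K D] (f : B →+* D)
    (hf : ∀ r, f (algebraMap R B r) = algebraMap K D (φ r)) (b : B) :
    Fib.lift φ B f hf (Fib.of φ B b) = f b := by
  let iD : Algebra (Pt φ) D := (inferInstance : Algebra K D)
  let : Algebra R D := ((algebraMap K D).comp φ).toAlgebra' (fun r x => by
    simp only [RingHom.comp_apply]; exact Algebra.commutes _ _)
  have : IsScalarTower R (Pt φ) D := IsScalarTower.of_algebraMap_eq (fun _ => rfl)
  have h := Algebra.TensorProduct.lift_tmul (S := Pt φ) (Algebra.ofId (Pt φ) D)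
    ({ f with commutes' := hf } : B →ₐ[R] D) (fun x y => Algebra.commutes (R := K) x _)
    (1 : Pt φ) b
  rw [map_one, one_mul] at h
  exact h

theorem Fib.span_of : Submodule.span K (Set.range (Fib.of φ B)) = ⊤ := by
  rw [eq_top_iff]
  rintro (x : Pt φ ⊗[R] B) -
  induction x using TensorProduct.induction_on with
  | zero => exact Submodule.zero_mem _
  | tmul c b =>
    have h := Fib.smul_of φ B c b
    change Fib.tmul φ B c b ∈ _
    rw [← h]
    exact Submodule.smul_mem _ _ (Submodule.subset_span ⟨b, rfl⟩)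
  | add x y hx hy => exact Submodule.add_mem _ hx hy

theorem Fib.hom_ext {D : Type} [Ring D] [Algebra K D] (f g : Fib φ B →ₐ[K] D)
    (h : ∀ b, f (Fib.of φ B b) = g (Fib.of φ B b)) : f = g := by
  apply AlgHom.ext
  intro x
  have hx : x ∈ Submodule.span K (Set.range (Fib.of φ B)) := by
    rw [Fib.span_of]; trivial
  induction hx using Submodule.span_induction with
  | mem x hx => obtain ⟨b, rfl⟩ := hx; exact h b
  | zero => rw [map_zero, map_zero]
  | add x y _ _ hx hy => rw [map_add, map_add, hx, hy]
  | smul c x _ hx => rw [map_smul, map_smul, hx]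

/-- The map from the usual tensor product to the fibre. -/
noncomputable def Fib.fromTensor [Algebra R K] (h : algebraMap R K = φ) :
    K ⊗[R] B →ₐ[K] Fib φ B :=
  letI : Algebra R (Fib φ B) := ((algebraMap K (Fib φ B)).comp φ).toAlgebra' (fun r x => by
    simp only [RingHom.comp_apply]; exact Algebra.commutes _ _)
  haveI : IsScalarTower R K (Fib φ B) := IsScalarTower.of_algebraMap_eq (fun _ => by
    subst h; rfl)
  Algebra.TensorProduct.lift (Algebra.ofId K (Fib φ B))
    ({ Fib.of φ B with commutes' := fun r => Fib.of_algebraMap φ B r } : B →ₐ[R] Fib φ B)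
    (fun x y => Algebra.commutes (R := K) x _)

theorem Fib.fromTensor_tmul [Algebra R K] (h : algebraMap R K = φ) (b : B) :
    Fib.fromTensor φ B h (1 ⊗ₜ[R] b) = Fib.of φ B b := by
  let : Algebra R (Fib φ B) := ((algebraMap K (Fib φ B)).comp φ).toAlgebra' (fun r x => by
    simp only [RingHom.comp_apply]; exact Algebra.commutes _ _)
  have : IsScalarTower R K (Fib φ B) := IsScalarTower.of_algebraMap_eq (fun _ => by
    subst h; rfl)
  have h := Algebra.TensorProduct.lift_tmul (Algebra.ofId K (Fib φ B))
    ({ Fib.of φ B with commutes' := fun r => Fib.of_algebraMap φ B r } : B →ₐ[R] Fib φ B)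
    (fun x y => Algebra.commutes (R := K) x _) (1 : K) b
  rw [map_one, one_mul] at h
  exact h

/-- The fibre at the structure map is the usual tensor product. -/
noncomputable def Fib.equivTensor [Algebra R K] (h : algebraMap R K = φ) :
    Fib φ B ≃ₐ[K] K ⊗[R] B :=
  AlgEquiv.ofAlgHom
    (Fib.lift φ B ((Algebra.TensorProduct.includeRight : B →ₐ[R] K ⊗[R] B) : B →+* K ⊗[R] B)
      (fun r => by
        subst h
        exact (Algebra.TensorProduct.includeRight : B →ₐ[R] K ⊗[R] B).commutes r))
    (Fib.fromTensor φ B h)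
    (by
      apply Algebra.TensorProduct.ext
      · exact Subsingleton.elim _ _
      · ext b
        have h1 : Fib.lift φ B ((Algebra.TensorProduct.includeRight : B →ₐ[R] K ⊗[R] B) :
          B →+* K ⊗[R] B) (fun r => by
            subst h
            exact (Algebra.TensorProduct.includeRight : B →ₐ[R] K ⊗[R] B).commutes r)
            (Fib.fromTensor φ B h (1 ⊗ₜ[R] b)) = 1 ⊗ₜ[R] b := by
          rw [Fib.fromTensor_tmul, Fib.lift_of]
          rfl
        exact h1)
    (by
      apply Fib.hom_ext
      intro b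
      rw [AlgHom.comp_apply, Fib.lift_of]
      exact Fib.fromTensor_tmul φ B h b)

@[simp] theorem Fib.equivTensor_of [Algebra R K] (h : algebraMap R K = φ) (b : B) :
    Fib.equivTensor φ B h (Fib.of φ B b) = 1 ⊗ₜ[R] b :=
  Fib.lift_of _ _ _ _ _

/-- Isomorphic algebras have isomorphic fibres. -/
noncomputable def Fib.congr {B' : Type} [Ring B'] [Algebra R B'] (e : B ≃ₐ[R] B') :
    Fib φ B ≃ₐ[K] Fib φ B' :=
  AlgEquiv.ofAlgHom
    (Fib.lift φ B ((Fib.of φ B').comp (e : B →+* B')) (fun r => by
      simp only [RingHom.comp_apply, RingHom.coe_coe, AlgEquiv.commutes, Fib.of_algebraMap]))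
    (Fib.lift φ B' ((Fib.of φ B).comp (e.symm : B' →+* B)) (fun r => by
      simp only [RingHom.comp_apply, RingHom.coe_coe, AlgEquiv.commutes, Fib.of_algebraMap]))
    (by
      apply Fib.hom_ext
      intro b
      simp)
    (by
      apply Fib.hom_ext
      intro b
      simp)

end Fib

/-- Complex `n × n` matrices. -/
abbrev Mn (n : ℕ) : Type := Matrix (Fin n) (Fin n) ℂ

/-- `ψ : B → M_n(ℂ)` is a ring homomorphism over the complex point `x` of `Spec R` whose image
spans `M_n(ℂ)`. -/
structure IsRep {R B : Type} [CommRing R] [Ring B] [Algebra R B] {n : ℕ} (x : R →+* ℂ)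
    (ψ : B →+* Mn n) : Prop where
  base : ∀ r, ψ (algebraMap R B r) = x r • (1 : Mn n)
  span : Submodule.span ℂ (Set.range ψ) = ⊤

/-- `ψ` is a continuous family over the subset `D` of `E` of such homomorphisms over the family of
points `φ`. -/
structure IsFam {E R B : Type} [TopologicalSpace E] [CommRing R] [Ring B] [Algebra R B] {n : ℕ}
    (φ : E → R →+* ℂ) (ψ : E → B →+* Mn n) (D : Set E) : Prop where
  rep : ∀ k ∈ D, IsRep (φ k) (ψ k)
  cont : ∀ b, ContinuousOn (fun k => ψ k b) D

/-- `g` is an invertible matrix which intertwines the real representation `ψ` (over a real point)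
with its complex conjugate, and `conj g * g` is the real scalar `c`. -/
structure IsReal {B : Type} [Ring B] {n : ℕ} (ψ : B →+* Mn n) (g : Mn n) (c : ℝ) : Prop where
  unit : IsUnit g.det
  inter : ∀ b, g * ψ b = (ψ b).map (starRingEnd ℂ) * g
  sq : g.map (starRingEnd ℂ) * g = (c : ℂ) • (1 : Mn n)

end Pool.Agent.W94.BF
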