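import Pool.Agent.W94.BF.Alg

set_option autoImplicit false

open scoped TensorProduct

namespace Pool.Agent.W94.BF

open MvPolynomial

/-- First equation of `X`: `p w - 1 - z² = 0`; the variables are `0 = s, 1 = p, 2 = w, 3 = z,
4 = d`. -/
noncomputable def relA : MvPolynomial (Fin 5) ℚ := X 1 * X 2 - 1 - X 3 ^ 2

/-- Second equation of `X`: `d (s² - 4 p) - 1 = 0`. -/
noncomputable def relB : MvPolynomial (Fin 5) ℚ := X 4 * (X 0 ^ 2 - 4 * X 1) - 1

/-- The coordinate ring of the affine variety `X ⊂ 𝔸⁵` over `ℚ`: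
`ℚ[s, p, w, z, d] / (p w - 1 - z², d (s² - 4 p) - 1)`. -/
abbrev XR : Type := MvPolynomial (Fin 5) ℚ ⧸ Ideal.span {relA, relB}

namespace XR

/-- The coordinate functions. -/
noncomputable def s : XR := Ideal.Quotient.mk _ (X 0)
noncomputable def p : XR := Ideal.Quotient.mk _ (X 1)
noncomputable def w : XR := Ideal.Quotient.mk _ (X 2)
noncomputable def z : XR := Ideal.Quotient.mk _ (X 3)
noncomputable def d : XR := Ideal.Quotient.mk _ (X 4)

theorem pw : p * w = 1 + z ^ 2 := by
  have h : (Ideal.Quotient.mk (Ideal.span {relA, relB}) relA : XR) = 0 :=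
    Ideal.Quotient.eq_zero_iff_mem.mpr (Ideal.subset_span (by simp))
  have key : ∀ f : MvPolynomial (Fin 5) ℚ →+* XR,
      f relA = f (X 1) * f (X 2) - 1 - f (X 3) ^ 2 := by
    intro f; simp [relA]
  have h2 : p * w - 1 - z ^ 2 = 0 := (key _).symm.trans h
  linear_combination h2

theorem disc : d * (s ^ 2 - 4 * p) = 1 := by
  have h : (Ideal.Quotient.mk (Ideal.span {relA, relB}) relB : XR) = 0 :=
    Ideal.Quotient.eq_zero_iff_mem.mpr (Ideal.subset_span (by simp))
  have key : ∀ f : MvPolynomial (Fin 5) ℚ →+* XR,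
      f relB = f (X 4) * (f (X 0) ^ 2 - 4 * f (X 1)) - 1 := by
    intro f
    have h4 : f 4 = 4 := map_ofNat f 4
    simp [relB, h4]
  have h2 : d * (s ^ 2 - 4 * p) - 1 = 0 := (key _).symm.trans h
  linear_combination h2

/-- The `K`-point of `X` with the coordinates `s, p, w, z`. -/
noncomputable def pt {K : Type} [Field K] [Algebra ℚ K] (s p w z : K) (h : p * w = 1 + z ^ 2)
    (h' : s ^ 2 - 4 * p ≠ 0) : XR →ₐ[ℚ] K :=
  Ideal.Quotient.liftₐ (Ideal.span {relA, relB}) (aeval ![s, p, w, z, (s ^ 2 - 4 * p)⁻¹]) (by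
    intro a ha
    have : Ideal.span {relA, relB} ≤
        RingHom.ker ((aeval ![s, p, w, z, (s ^ 2 - 4 * p)⁻¹] : MvPolynomial (Fin 5) ℚ →ₐ[ℚ] K) :
          MvPolynomial (Fin 5) ℚ →+* K) := by
      rw [Ideal.span_le]
      rintro x (rfl | rfl)
      · rw [SetLike.mem_coe, RingHom.mem_ker]
        simp [relA]
        linear_combination h
      · rw [SetLike.mem_coe, RingHom.mem_ker]
        simp only [relB, RingHom.coe_coe, map_sub, map_mul, map_pow, aeval_X, map_ofNat, map_one]
        change (s ^ 2 - 4 * p)⁻¹ * (s ^ 2 - 4 * p) - 1 = 0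
        rw [inv_mul_cancel₀ h', sub_self]
    exact this ha)

section
variable {K : Type} [Field K] [Algebra ℚ K] (a b c e : K) (h : b * c = 1 + e ^ 2)
    (h' : a ^ 2 - 4 * b ≠ 0)

theorem pt_mk (q : MvPolynomial (Fin 5) ℚ) :
    pt a b c e h h' (Ideal.Quotient.mk _ q) = aeval ![a, b, c, e, (a ^ 2 - 4 * b)⁻¹] q := rfl

@[simp] theorem pt_s : pt a b c e h h' s = a := by rw [s, pt_mk]; simp
@[simp] theorem pt_p : pt a b c e h h' p = b := by rw [p, pt_mk]; simp
@[simp] theorem pt_w : pt a b c e h h' w = c := by rw [w, pt_mk]; simp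
@[simp] theorem pt_z : pt a b c e h h' z = e := by rw [z, pt_mk]; simp
@[simp] theorem pt_d : pt a b c e h h' d = (a ^ 2 - 4 * b)⁻¹ := by rw [d, pt_mk, aeval_X]; rfl

end

/-- A homomorphism `XR → K` is determined by its values at the first four coordinates. -/
theorem hom_ext {K : Type} [Field K] (f g : XR →+* K) (h0 : f s = g s) (h1 : f p = g p)
    (h2 : f w = g w) (h3 : f z = g z) : f = g := by
  have hd : ∀ u : XR →+* K, u d = ((u s) ^ 2 - 4 * u p)⁻¹ := by
    intro u
    have h := congrArg u disc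
    simp only [map_mul, map_sub, map_pow, map_ofNat, map_one] at h
    exact eq_inv_of_mul_eq_one_left h
  have h4 : f d = g d := by rw [hd f, hd g, h0, h1]
  apply Ideal.Quotient.ringHom_ext
  apply MvPolynomial.ringHom_ext
  · intro r
    exact congrFun (congrArg DFunLike.coe (Subsingleton.elim
      (((f.comp (Ideal.Quotient.mk _)).comp C)) (((g.comp (Ideal.Quotient.mk _)).comp C)))) r
  · intro i
    fin_cases i
    · exact h0
    · exact h1
    · exact h2
    · exact h3
    · exact h4

/-- The values of a function at a continuous family of points are continuous. -/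
theorem continuous_pt {E : Type} [TopologicalSpace E] (a b c e : E → ℂ) (ha : Continuous a)
    (hb : Continuous b) (hc : Continuous c) (he : Continuous e)
    (h : ∀ k, b k * c k = 1 + e k ^ 2) (h' : ∀ k, a k ^ 2 - 4 * b k ≠ 0) (r : XR) :
    Continuous (fun k => pt (a k) (b k) (c k) (e k) (h k) (h' k) r) := by
  obtain ⟨q, rfl⟩ := Ideal.Quotient.mk_surjective r
  simp only [pt_mk]
  induction q using MvPolynomial.induction_on with
  | C r => simp only [aeval_C]; exact continuous_const
  | add x y hx hy => simp only [map_add]; exact hx.add hy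
  | mul_X x i hx =>
    simp only [map_mul, aeval_X]
    refine hx.mul ?_
    fin_cases i
    · exact ha
    · exact hb
    · exact hc
    · exact he
    · exact Continuous.inv₀ (by fun_prop) h'

end XR

/-- The `XR`-algebra `A`: the Clifford algebra over `L = XR[t]/(t² - s t + p)` of the form
`t x² + 2 z x y + (s - t) w y²`. -/
abbrev XA : Type := AA XR XR.s XR.p XR.w XR.z

/-- Its marked element, of square `-1`. -/
noncomputable def XA.mark : XA := AA.mark XR.s XR.p XR.w XR.z

end Pool.Agent.W94.BF
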