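import Pool.Agent.W94.BF.Defs
import Pool.Agent.W94.BF.XR

set_option autoImplicit false

open scoped TensorProduct Topology Matrix

namespace Pool.Agent.W94.BF

/-! ### Fibres of Azumaya algebras -/

/-- AZ -/
def S_AZ : Prop := ∀ (R B K : Type) [CommRing R] [Ring B] [Algebra R B] [Field K] (φ : R →+* K),
  IsAzumaya R B →
    Algebra.IsCentral K (Fib φ B) ∧ IsSimpleRing (Fib φ B) ∧ FiniteDimensional K (Fib φ B)

/-- PT -/
def S_PT : Prop := ∀ (R B : Type) [CommRing R] [Ring B] [Algebra R B] (x : R →+* ℂ),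
  IsAzumaya R B → ∃ n : ℕ, 0 < n ∧ ∃ ψ : B →+* Mn n, IsRep x ψ

/-- ALG -/
def S_ALG : Prop := ∀ (R B : Type) [CommRing R] [Ring B] [Algebra R B] (x : R →+* ℂ) (n : ℕ)
  (ψ : B →+* Mn n), IsAzumaya R B → 0 < n → IsRep x ψ →
    ∃ e : Fib x B ≃ₐ[ℂ] Mn n, ∀ b, e (Fib.of x B b) = ψ b

/-- DIM -/
def S_DIM : Prop := ∀ (R B : Type) [CommRing R] [Ring B] [Algebra R B] (x : R →+* ℂ) (n n' : ℕ)
  (ψ : B →+* Mn n) (ψ' : B →+* Mn n'), IsAzumaya R B → 0 < n → 0 < n' → IsRep x ψ →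
    IsRep x ψ' → n = n'

/-- INTW (Skolem–Noether) -/
def S_INTW : Prop := ∀ (R B : Type) [CommRing R] [Ring B] [Algebra R B] (x : R →+* ℂ) (n : ℕ)
  (ψ ψ' : B →+* Mn n), IsAzumaya R B → 0 < n → IsRep x ψ → IsRep x ψ' →
    ∃ g : Mn n, g.det = 1 ∧ ∀ b, g * ψ b = ψ' b * g

/-! ### Local and global triviality of continuous families -/

/-- NEWT: idempotents near almost idempotent matrices, continuously. -/
def S_NEWT : Prop := ∀ m : ℕ, ∃ (U : Set (Mn m)) (E : Mn m → Mn m), IsOpen U ∧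
  ContinuousOn E U ∧ (∀ e : Mn m, e * e = e → e ∈ U ∧ E e = e) ∧
  ∀ x ∈ U, E x * E x = E x ∧ ∃ q : Polynomial ℂ, E x = x * Polynomial.aeval x q

/-- LOC: every representation over a point extends to a continuous family near the point. -/
def S_LOC : Prop := ∀ (E R B : Type) [TopologicalSpace E] [CommRing R] [Ring B] [Algebra R B]
  (φ : E → R →+* ℂ) (k : E) (n : ℕ) (ψ₀ : B →+* Mn n), IsAzumaya R B → 0 < n →
  (∀ r, Continuous fun k => φ k r) → IsRep (φ k) ψ₀ →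
    ∃ U ∈ 𝓝 k, ∃ ψ : E → B →+* Mn n, IsFam φ ψ U

/-- AUT: two continuous families differ by a continuous family of automorphisms. -/
def S_AUT : Prop := ∀ (E R B : Type) [TopologicalSpace E] [CommRing R] [Ring B] [Algebra R B]
  (φ : E → R →+* ℂ) (D : Set E) (n : ℕ) (ψ ψ' : E → B →+* Mn n), IsAzumaya R B → 0 < n →
  IsFam φ ψ D → IsFam φ ψ' D →
    ∃ α : E → (Mn n →ₐ[ℂ] Mn n), (∀ k ∈ D, ∀ b, α k (ψ k b) = ψ' k b) ∧
      ∀ M, ContinuousOn (fun k => α k M) D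

/-- INTLOC: continuous intertwiners of determinant one, locally. -/
def S_INTLOC : Prop := ∀ (E R B : Type) [TopologicalSpace E] [CommRing R] [Ring B] [Algebra R B]
  (φ : E → R →+* ℂ) (D : Set E) (n : ℕ) (ψ ψ' : E → B →+* Mn n) (k₀ : E), IsAzumaya R B →
  0 < n → IsFam φ ψ D → IsFam φ ψ' D → k₀ ∈ D →
    ∃ U ∈ 𝓝 k₀, ∃ g : E → Mn n, ContinuousOn g (U ∩ D) ∧
      ∀ k ∈ U ∩ D, (g k).det = 1 ∧ ∀ b, g k * ψ k b = ψ' k b * g k

/-- BOX: induction over boxes. -/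
def S_BOX : Prop := ∀ (d : ℕ) (A C : Fin d → ℝ) (P : (Fin d → ℝ) → (Fin d → ℝ) → Prop),
  (∀ i, A i < C i) →
  (∀ (a b : Fin d → ℝ) (i : Fin d) (c : ℝ), A ≤ a → a ≤ b → b ≤ C → a i ≤ c → c ≤ b i →
    P a (Function.update b i c) → P (Function.update a i c) b → P a b) →
  (∀ k ∈ Set.Icc A C, ∃ U ∈ 𝓝 k, ∀ a b : Fin d → ℝ, A ≤ a → a ≤ b → b ≤ C →
    Set.Icc a b ⊆ U → P a b) →
  P A C

/-- T1: continuous families over boxes. -/
def S_T1 : Prop := ∀ (d : ℕ) (A C : Fin d → ℝ) (R B : Type) [CommRing R] [Ring B] [Algebra R B]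
  (φ : (Fin d → ℝ) → R →+* ℂ), IsAzumaya R B → (∀ i, A i < C i) →
  (∀ r, Continuous fun k => φ k r) →
    ∃ n : ℕ, 0 < n ∧ ∃ ψ : (Fin d → ℝ) → B →+* Mn n, IsFam φ ψ (Set.Icc A C)

/-- INT: continuous intertwiners of determinant one over boxes. -/
def S_INT : Prop := ∀ (d : ℕ) (A C : Fin d → ℝ) (R B : Type) [CommRing R] [Ring B] [Algebra R B]
  (φ : (Fin d → ℝ) → R →+* ℂ) (n : ℕ) (ψ ψ' : (Fin d → ℝ) → B →+* Mn n), IsAzumaya R B →
  (∀ i, A i < C i) → 0 < n → IsFam φ ψ (Set.Icc A C) → IsFam φ ψ' (Set.Icc A C) →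
    ∃ g : (Fin d → ℝ) → Mn n, ContinuousOn g (Set.Icc A C) ∧
      ∀ k ∈ Set.Icc A C, (g k).det = 1 ∧ ∀ b, g k * ψ k b = ψ' k b * g k

/-- SIGN: the sign of a real structure does not depend on the choices. -/
def S_SIGN : Prop := ∀ (R B : Type) [CommRing R] [Ring B] [Algebra R B] (x : R →+* ℂ) (n : ℕ)
  (ψ ψ' : B →+* Mn n) (g g' : Mn n) (c c' : ℝ), IsAzumaya R B → 0 < n → IsRep x ψ →
  IsRep x ψ' → IsReal ψ g c → IsReal ψ' g' c' → 0 < c * c'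

/-- ISO: equal signs at two real points give isomorphic real fibres. -/
def S_ISO : Prop := ∀ (R B : Type) [CommRing R] [Ring B] [Algebra R B] (x y : R →+* ℝ) (n : ℕ)
  (ψ ψ' : B →+* Mn n) (g g' : Mn n) (c c' : ℝ), IsAzumaya R B → 0 < n →
  IsRep (Complex.ofRealHom.comp x) ψ → IsRep (Complex.ofRealHom.comp y) ψ' →
  IsReal ψ g c → IsReal ψ' g' c' → 0 < c * c' → Nonempty (Fib x B ≃ₐ[ℝ] Fib y B)

/-- The real point `(3, 2, 1/2, 0)` of `X`. -/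
noncomputable def ptPlus (K : Type) [Field K] [Algebra ℚ K] : XR →ₐ[ℚ] K :=
  (Algebra.ofId ℚ K).comp (XR.pt (K := ℚ) 3 2 (1 / 2) 0 (by norm_num) (by norm_num))

/-- The real point `(-3, 2, 1/2, 0)` of `X`. -/
noncomputable def ptMinus (K : Type) [Field K] [Algebra ℚ K] : XR →ₐ[ℚ] K :=
  (Algebra.ofId ℚ K).comp (XR.pt (K := ℚ) (-3) 2 (1 / 2) 0 (by norm_num) (by norm_num))

/-- E: every Azumaya algebra over `X` has isomorphic fibres at the two real points. -/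
def S_E : Prop := ∀ (B : Type) [Ring B] [Algebra XR B], IsAzumaya XR B →
  Nonempty (Fib (ptPlus ℝ : XR →+* ℝ) B ≃ₐ[ℝ] Fib (ptMinus ℝ : XR →+* ℝ) B)

/-! ### The variety and the torsor -/

/-- SMOOTH -/
def S_SMOOTH : Prop := Algebra.Smooth ℚ XR

/-- GEOM -/
def S_GEOM : Prop := ∀ (K : Type) [Field K] [Algebra ℚ K], IsDomain (K ⊗[ℚ] XR)

/-- `A` is, locally for the étale topology of `Spec R`, isomorphic to `M₂ × M₂` with the marked
element `(J, J)`, `J = (0 -1; 1 0)`: every prime of `R` lies in the image of `Spec S` for some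
étale `R`-algebra `S` over which `A` and its marked element `i` become isomorphic to this model. -/
def IsModelForm (R A : Type) [CommRing R] [Ring A] [Algebra R A] (i : A) : Prop :=
  ∀ P : PrimeSpectrum R, ∃ (S : Type) (_ : CommRing S) (_ : Algebra R S), Algebra.Etale R S ∧
    P ∈ Set.range (PrimeSpectrum.comap (algebraMap R S)) ∧
    ∃ e : S ⊗[R] A ≃ₐ[S] (Matrix (Fin 2) (Fin 2) S × Matrix (Fin 2) (Fin 2) S),
      e (1 ⊗ₜ[R] i) = (!![0, -1; 1, 0], !![0, -1; 1, 0])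

/-- ETQ: quadratic algebras with invertible discriminant are étale and faithfully flat. -/
def S_ETQ : Prop := ∀ (R : Type) [CommRing R] (a b : R), IsUnit (b ^ 2 + 4 * a) →
  Algebra.Etale R (QuadraticAlgebra R a b) ∧ Module.FaithfullyFlat R (QuadraticAlgebra R a b)

/-- MAT: over a ring in which the quadratic polynomial splits, `i` exists and `z + i` or `z - i` is
a unit, the algebra is the model. -/
def S_MAT : Prop := ∀ (S : Type) [CommRing S] (t₁ t₂ w z I u : S), IsUnit (t₁ - t₂) →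
  IsUnit (2 : S) → t₁ * t₂ * w = 1 + z ^ 2 → I * I = -1 → ((z + I) * u = 1 ∨ (z - I) * u = 1) →
    ∃ e : AA S (t₁ + t₂) (t₁ * t₂) w z ≃ₐ[S]
      (Matrix (Fin 2) (Fin 2) S × Matrix (Fin 2) (Fin 2) S),
      e (AA.mark (t₁ + t₂) (t₁ * t₂) w z) = (!![0, -1; 1, 0], !![0, -1; 1, 0])

/-- BC: base change. -/
def S_BC : Prop := ∀ (R S : Type) [CommRing R] [CommRing S] [Algebra R S] (s p w z : R),
  ∃ e : S ⊗[R] AA R s p w z ≃ₐ[S] AA S (algebraMap R S s) (algebraMap R S p)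
      (algebraMap R S w) (algebraMap R S z),
    e (1 ⊗ₜ[R] AA.mark s p w z) = AA.mark _ _ _ _

/-- TORS -/
def S_TORS : Prop := IsModelForm XR XA XA.mark

/-- ARITH -/
def S_ARITH : Prop := ∀ a : ℚ, a < 0 →
  (∀ (q : ℕ) [Fact q.Prime], ∃ x y : ℚ_[q], (a : ℚ_[q]) = x ^ 2 + y ^ 2) → False

/-- SQ -/
def S_SQ : Prop := ∀ D : ℚ, (∀ (q : ℕ) [Fact q.Prime], IsSquare (D : ℚ_[q])) → IsSquare D

/-- DESC: there is no global algebra with the given localisations. -/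
def S_DESC : Prop := ∀ (A₀ : Type) [Ring A₀] [Algebra ℚ A₀] (i₀ : A₀),
  (∀ (q : ℕ) [Fact q.Prime], ∃ e : ℚ_[q] ⊗[ℚ] A₀ ≃ₐ[ℚ_[q]] AA ℚ_[q] 3 2 (1 / 2) 0,
    e (1 ⊗ₜ[ℚ] i₀) = AA.mark 3 2 (1 / 2) 0) →
  (∃ e : ℝ ⊗[ℚ] A₀ ≃ₐ[ℝ] AA ℝ (-3) 2 (1 / 2) 0,
    e (1 ⊗ₜ[ℚ] i₀) = AA.mark (-3) 2 (1 / 2) 0) → False

end Pool.Agent.W94.BF
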